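import Mathlib
import Pool.Agent.H557Z.ShmDefs
import Pool.Agent.H557Z.ShmCode

namespace Pool.Agent.Results.MP_056111_lc.AUnionNotSHM

open Pool.Agent.H557Z.Shm

/-- The group of integer sequences, with the product topology, is an abelian Polish group. -/
example : IsTopologicalAddGroup (ℕ → ℤ) ∧ PolishSpace (ℕ → ℤ) := ⟨inferInstance, inferInstance⟩

/-- In the abelian Polish group of integer sequences there are two strongly Haar meager sets whose
union is not strongly Haar meager. -/
theorem result : ∃ A₀ A₁ : Set (ℕ → ℤ),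
    StronglyHaarMeager A₀ ∧ StronglyHaarMeager A₁ ∧ ¬ StronglyHaarMeager (A₀ ∪ A₁) :=
  ⟨A0, A1, shm_A0, shm_A1, not_shm_union⟩

end Pool.Agent.Results.MP_056111_lc.AUnionNotSHM
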